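import Pool.Agent.Helper84.AltDefs
import Pool.Agent.Helper84.AltFinal

set_option autoImplicit false

namespace Pool.Agent.Results.MP_9e3efc_al.AltCharacterFails

open Pool.Agent.Helper84.Alt

/-- **Main result.** Let `V = 𝕜^d` with `d ≥ 3`. There is a unique pair `a(V), b(V) ∈ R₊` with
`[Φ : [L(0)]] = [𝕜]` and `[Φ : [L(α₁ + α₂)]] = -[V]` for
`Φ = λ(a(V) [L(α₁ + α₂)] + b(V) [L(0)])`, and `[Alt(V)] ≠ a(V)`.

(The proof: for three of the variables specialised to `z` and the others to `0`, the coefficient of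
`z^10` of `a(V)` is `56961`, while that of `[Alt(V)]` is at least `3^10 = 59049`, the dimension of
the degree `10` part of the free associative algebra on three generators.) -/
theorem result (k : Type*) [Field k] (d : ℕ) (hd : 3 ≤ d) :
    ∃ a b : MvPowerSeries (Fin d) ℤ, IsPair a b ∧
      (∀ a' b' : MvPowerSeries (Fin d) ℤ, IsPair a' b' → a' = a ∧ b' = b) ∧
      altChar k d ≠ a := by
  obtain ⟨a, b, h, hu⟩ := existsUnique_pair d
  exact ⟨a, b, h, hu, altChar_ne k hd h⟩

end Pool.Agent.Results.MP_9e3efc_al.AltCharacterFails
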